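import Pool.Agent.Helper22.RKI.St

set_option autoImplicit false

namespace Pool.Agent.Helper39.RKI

open Pool.Agent.Helper43.RK Pool.Agent.Helper22.RKI

theorem cz {G : Type} [Group G] (x y : G) (m : ℤ) : x⁻¹ * y ^ m * x = (x⁻¹ * y * x) ^ m := by
  have := (map_zpow (MulAut.conj x⁻¹) y m)
  simpa [MulAut.conj_apply] using this

theorem hS0 : StS0 := by
  intro n k β G _ g a t h
  obtain ⟨h1, h2, h3⟩ := h
  have h4 : a⁻¹ * g ^ 4 * a = (g ^ 4) ^ k := by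
    have := cz a g 4
    rw [h1] at this
    rw [← pow_mul, mul_comm 4 k, pow_mul]
    exact_mod_cast this
  refine ⟨h2, h4, ?_⟩
  unfold Rel0
  set f := g ^ 4 with hf
  set s := g ^ β with hs
  set l : ℤ := 1 - 2 ^ n with hl
  have hfs : f * s = s * f := by rw [hf, hs, ← pow_add, ← pow_add, add_comm]
  have hfa : f⁻¹ * a * f = a * f ^ (1 - (k : ℤ)) := by
    have e1 : a⁻¹ * f⁻¹ * a = f ^ (-(k : ℤ)) := by
      have := cz a f (-1)
      rw [h4] at this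
      rw [zpow_neg_one, zpow_neg_one] at this
      rw [this, zpow_neg, zpow_natCast]
    calc f⁻¹ * a * f = a * (a⁻¹ * f⁻¹ * a) * f := by group
      _ = a * (f ^ (-(k : ℤ)) * f ^ (1 : ℤ)) := by rw [e1, mul_assoc, zpow_one]
      _ = a * f ^ (1 - (k : ℤ)) := by rw [← zpow_add]; congr 2; ring
  have hft : ∀ m : ℤ, f⁻¹ * t ^ m * f = t ^ (2 * m) := by
    intro m
    rw [cz, h2, zpow_mul]
    norm_cast
  have hal : f⁻¹ * cj a t l * f = t ^ (-(2 * l)) * (a * f ^ (1 - (k : ℤ))) * t ^ (2 * l) := by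
    have e1 := hft (-l)
    have e2 := hft l
    calc f⁻¹ * cj a t l * f = (f⁻¹ * t ^ (-l) * f) * (f⁻¹ * a * f) * (f⁻¹ * t ^ l * f) := by
          unfold cj; group
      _ = _ := by rw [e1, e2, hfa]; congr 3; ring
  have k1 : s⁻¹ * t ^ 2 * s = (cj a t l * t⁻¹) * (cj a t l * t⁻¹) := by
    rw [← h3, pow_two]; group
  have k2 : s⁻¹ * t ^ 2 * s = (f⁻¹ * cj a t l * f) * t ^ (-2 : ℤ) := by
    have e := hft (-1)
    calc s⁻¹ * t ^ 2 * s = s⁻¹ * (f⁻¹ * t * f) * s := by rw [h2]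
      _ = (f * s)⁻¹ * t * (f * s) := by group
      _ = (s * f)⁻¹ * t * (s * f) := by rw [hfs]
      _ = f⁻¹ * (s⁻¹ * t * s) * f := by group
      _ = f⁻¹ * (cj a t l * t⁻¹) * f := by rw [h3]
      _ = (f⁻¹ * cj a t l * f) * (f⁻¹ * t ^ (-1 : ℤ) * f) := by group
      _ = _ := by rw [e]; norm_num
  rw [k1, hal] at k2
  -- k2 : al t⁻¹ al t⁻¹ = t^(-2l) a f^(1-k) t^(2l) t^(-2)
  have k3 : a * t⁻¹ * a = t ^ l * (cj a t l * t⁻¹ * (cj a t l * t⁻¹)) * t ^ (1 - l) := by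
    unfold cj
    have : t ^ l * (t ^ (-l) * a * t ^ l * t⁻¹ * (t ^ (-l) * a * t ^ l * t⁻¹)) * t ^ (1 - l) =
      a * (t ^ l * t ^ (-1 : ℤ) * t ^ (-l)) * a * (t ^ l * t ^ (-1 : ℤ) * t ^ (1 - l)) := by
      group
    rw [this]
    simp only [← zpow_add]
    have e1 : l + -1 + -l = -1 := by ring
    have e2 : l + -1 + (1 - l) = 0 := by ring
    rw [e1, e2, zpow_zero, mul_one, zpow_neg_one]
  rw [k3, k2]
  have e3 : t ^ l * (t ^ (-(2 * l)) * (a * f ^ (1 - (k : ℤ))) * t ^ (2 * l) * t ^ (-2 : ℤ)) *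
      t ^ (1 - l) = (t ^ l * t ^ (-(2 * l))) * a * f ^ (1 - (k : ℤ)) *
      (t ^ (2 * l) * t ^ (-2 : ℤ) * t ^ (1 - l)) := by
    simp only [mul_assoc]
  rw [e3, ← zpow_add, ← zpow_add, ← zpow_add]
  have e4 : l + -(2 * l) = 2 ^ n - 1 := by rw [hl]; ring
  have e5 : 2 * l + -2 + (1 - l) = -2 ^ n := by rw [hl]; ring
  rw [e4, e5]

end Pool.Agent.Helper39.RKI

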